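import Pool.Agent.Helper95_PA.Can
import Pool.Agent.Helper95_PA.Final
import Pool.Agent.Helper51_PA.Fam
import Pool.Agent.Helper51_PA.Gen
import Pool.Agent.Helper55_PA.PA
import Pool.Agent.Helper76_PA.D2

/-!
# Every finite lattice is an interstructure lattice of models of PA

`IsPA N` (in `Pool.Agent.Helper95_PA.Defs`) says that the structure `N` in the language of rings
(with `-x = 0` for all `x`) satisfies the axioms of Peano arithmetic: `x + 1 ≠ 0`, injectivity of
the successor, the recursive equations of addition and multiplication, and induction for all
subsets of `N` which are definable with parameters.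
-/

set_option autoImplicit false

namespace Pool.Agent.Results.MP_bd9d66_lc.EveryFiniteLattice

open FirstOrder FirstOrder.Language

/-- For every nonempty finite lattice `L` there are models `M ≼ N` of Peano arithmetic such that
the set of all `K` with `M ≼ K ≼ N`, ordered by inclusion, is isomorphic to `L`. -/
theorem result (L : Type) [Lattice L] [Finite L] [Nonempty L] :
    ∃ (N : Type) (_ : Language.ring.Structure N), Pool.Agent.Helper95_PA.IsPA N ∧
      ∃ M : Language.ring.ElementarySubstructure N,
        Nonempty ({K : Language.ring.ElementarySubstructure N // M ≤ K} ≃o L) :=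
  Pool.Agent.Helper95_PA.final
    (Pool.Agent.Helper51_PA.fam_of_can Pool.Agent.Helper95_PA.canStatement)
    Pool.Agent.Helper51_PA.gen Pool.Agent.Helper55_PA.base Pool.Agent.Helper76_PA.iso L

end Pool.Agent.Results.MP_bd9d66_lc.EveryFiniteLattice
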